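import Pool.Agent.helper64.D2.SpecF

/-!
# Module NR4 of project dc: (MP_5823cb_al)
-/

set_option autoImplicit false

open Filter Topology
open scoped commutatorElement

namespace Pool.Agent.helper64.D2

theorem NR4_shift {g : CircleDeg1Liftˣ} {α β : ℝ} (h : SIn g α β) (n : ℤ) : SIn g (α + n) (β + n) := by
  intro x hx
  apply h
  intro m hm
  apply hx (m + n)
  push_cast
  exact ⟨by linarith [hm.1], by linarith [hm.2]⟩

theorem NR4_mono {g : CircleDeg1Liftˣ} {α β α' β' : ℝ} (h : SIn g α β) (h1 : α' ≤ α) (h2 : β ≤ β') :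
    SIn g α' β' := by
  intro x hx
  apply h
  intro m hm
  exact hx m ⟨h1.trans hm.1, hm.2.trans h2⟩

theorem NR4_conj (h6 : GGB_stmt) {a h : CircleDeg1Liftˣ} {α β α' β' : ℝ} (ha : SIn a α β)
    (hh : ∀ x ∈ Set.Icc α β, gg h x ∈ Set.Icc α' β') : SIn (h * a * h⁻¹) α' β' := by
  obtain ⟨-, hmul, -, hinv, hint, -, -, -⟩ := h6
  intro x hx
  rw [hmul, hmul]
  have h1 : gg a (gg h⁻¹ x) = gg h⁻¹ x := by
    apply ha
    intro n hn
    have h2 := hh _ hn
    rw [hint, (hinv h x).2] at h2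
    exact hx n h2
  rw [h1, (hinv h x).2]

theorem NR4_pair {a b : CircleDeg1Liftˣ} {α β : ℝ} (ha : SIn a α (α + 1 / 50)) (hb : SIn b β (β + 1 / 50)) :
    ∃ γ : ℝ, SIn a γ (γ + 3 / 5) ∧ SIn b γ (γ + 3 / 5) := by
  have hb1 : SIn b (β + ((-⌊β - α⌋ : ℤ) : ℝ)) (β + 1 / 50 + ((-⌊β - α⌋ : ℤ) : ℝ)) := NR4_shift hb _
  have hf0 : 0 ≤ Int.fract (β - α) := Int.fract_nonneg _
  have hf1 : Int.fract (β - α) < 1 := Int.fract_lt_one _
  have hfe : β + ((-⌊β - α⌋ : ℤ) : ℝ) = α + Int.fract (β - α) := by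
    unfold Int.fract; push_cast; ring
  have hfe' : β + 1 / 50 + ((-⌊β - α⌋ : ℤ) : ℝ) = α + Int.fract (β - α) + 1 / 50 := by
    rw [← hfe]; ring
  rw [hfe, hfe'] at hb1
  by_cases hc : Int.fract (β - α) ≤ 1 / 2
  · exact ⟨α, NR4_mono ha le_rfl (by linarith), NR4_mono hb1 (by linarith) (by linarith)⟩
  · push Not at hc
    have hb2 := NR4_shift hb1 (-1)
    refine ⟨α + Int.fract (β - α) + ((-1 : ℤ) : ℝ), NR4_mono ha ?_ ?_, NR4_mono hb2 le_rfl ?_⟩
    · push_cast; linarith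
    · push_cast; linarith
    · push_cast; linarith

theorem NR4 (h1 : NR1_stmt) (h2 : NR2_stmt) (h3 : NR3_stmt) (h4 : NCB_stmt) (h5 : FRG_stmt)
    (h6 : GGB_stmt) : NR4_stmt := by
  intro f hf hne
  -- step 1
  have s1 : ∀ a ∈ G2, ∀ b ∈ G2, ∀ α β : ℝ, SIn a α (α + 1 / 50) → SIn b β (β + 1 / 50) → ⁅a, b⁆ ∈ NC f := by
    intro a ha b hb α β sa sb
    obtain ⟨γ, ga, gb⟩ := NR4_pair sa sb
    obtain ⟨x0, η, hη, hd⟩ := h2 f hf hne
    obtain ⟨h, hG, hm⟩ := h3 γ (γ + 3 / 5) x0 η (by linarith) (by linarith) hη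
    have ha' : h * a * h⁻¹ ∈ G2 := G2.mul_mem (G2.mul_mem hG ha) (G2.inv_mem hG)
    have hb' : h * b * h⁻¹ ∈ G2 := G2.mul_mem (G2.mul_mem hG hb) (G2.inv_mem hG)
    have key := h1 f (h * a * h⁻¹) (h * b * h⁻¹) (x0 - η) (x0 + η) ha' hb' (NR4_conj h6 ga hm)
      (NR4_conj h6 gb hm) hd
    have k2 := (h4 f).2 h⁻¹ (G2.inv_mem hG) _ key
    have e : h⁻¹ * ⁅h * a * h⁻¹, h * b * h⁻¹⁆ * h⁻¹⁻¹ = ⁅a, b⁆ := by
      rw [commutatorElement_def, commutatorElement_def]; group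
    rwa [e] at k2
  -- step 2
  have s2 : ∀ b ∈ G2, ∀ β : ℝ, SIn b β (β + 1 / 50) → ∀ g ∈ G2, ⁅g, b⁆ ∈ NC f := by
    intro b hb β sb g hg
    obtain ⟨l, rfl, hl⟩ := h5 g hg 1 one_pos
    have key : ∀ l : List CircleDeg1Liftˣ, (∀ h ∈ l, h ∈ G2 ∧ ∃ α : ℝ, SIn h α (α + 1 / 50)) →
        ⁅l.prod, b⁆ ∈ NC f := by
      intro l
      induction l with
      | nil =>
        intro _
        rw [List.prod_nil, commutatorElement_def]
        simp
      | cons h t ih =>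
        intro hh
        rw [List.prod_cons]
        obtain ⟨hG, α, hα⟩ := hh h (List.mem_cons_self)
        have i1 := ih (fun k hk => hh k (List.mem_cons_of_mem _ hk))
        have i2 := (h4 f).2 h hG _ i1
        have i3 := s1 h hG b hb α β hα sb
        have e : ⁅h * t.prod, b⁆ = h * ⁅t.prod, b⁆ * h⁻¹ * ⁅h, b⁆ := by
          rw [commutatorElement_def, commutatorElement_def, commutatorElement_def]; group
        rw [e]
        exact (NC f).mul_mem i2 i3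
    exact key l (fun h hh => ⟨(hl h hh).1, (hl h hh).2.1⟩)
  -- step 3
  rw [Subgroup.commutator_le]
  intro g hg b hb
  obtain ⟨l, rfl, hl⟩ := h5 b hb 1 one_pos
  have key : ∀ l : List CircleDeg1Liftˣ, (∀ h ∈ l, h ∈ G2 ∧ ∃ α : ℝ, SIn h α (α + 1 / 50)) →
      ⁅g, l.prod⁆ ∈ NC f := by
    intro l
    induction l with
    | nil =>
      intro _
      rw [List.prod_nil, commutatorElement_def]
      simp
    | cons h t ih =>
      intro hh
      rw [List.prod_cons]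
      obtain ⟨hG, α, hα⟩ := hh h (List.mem_cons_self)
      have i1 := ih (fun k hk => hh k (List.mem_cons_of_mem _ hk))
      have i2 := (h4 f).2 h hG _ i1
      have i3 := s2 h hG α hα g hg
      have e : ⁅g, h * t.prod⁆ = ⁅g, h⁆ * (h * ⁅g, t.prod⁆ * h⁻¹) := by
        rw [commutatorElement_def, commutatorElement_def, commutatorElement_def]; group
      rw [e]
      exact (NC f).mul_mem i3 i2
  exact key l (fun h hh => ⟨(hl h hh).1, (hl h hh).2.1⟩)

end Pool.Agent.helper64.D2
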